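import Mathlib

/-!
# Cross-intersecting pairs of projective subspaces

We prove the conjectured bound `m ≤ 2 ^ (n + 1) - 2` for every field, every `n` and every
(skew) cross-intersecting sequence of pairs of nonempty projective subspaces.
-/

namespace Pool.Agent.Results.MP_59f694_co.CrossIntersectingBound

open Module

universe u v

/-- A triangular system of vectors and linear functionals: the vectors are independent. -/
lemma linInd_of_triangular {K : Type u} {L : Type v} [Field K] [AddCommGroup L] [Module K L]
    {ι : Type} [LinearOrder ι] [Fintype ι] (w : ι → L) (F : ι → (L →ₗ[K] K))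
    (hdiag : ∀ i, F i (w i) ≠ 0) (htri : ∀ i j, i < j → F j (w i) = 0) :
    LinearIndependent K w := by
  classical
  by_contra hcon
  rw [Fintype.not_linearIndependent_iff] at hcon
  obtain ⟨g, hg, i0, hi0⟩ := hcon
  let S : Finset ι := Finset.univ.filter (fun i => g i ≠ 0)
  have hS : S.Nonempty := ⟨i0, by simp [S, hi0]⟩
  let i := S.max' hS
  have hiS : i ∈ S := S.max'_mem hS
  have hgi : g i ≠ 0 := by simpa [S] using hiS
  have h0 : F i (∑ j, g j • w j) = 0 := by rw [hg]; simp
  rw [map_sum, Finset.sum_eq_single i] at h0
  · rw [map_smul, smul_eq_mul] at h0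
    exact (mul_ne_zero hgi (hdiag i)) h0
  · intro j _ hji
    rw [map_smul, smul_eq_mul]
    rcases lt_or_gt_of_ne hji with h | h
    · rw [htri j i h, mul_zero]
    · have : g j = 0 := by
        by_contra hne
        have : j ≤ i := S.le_max' j (by simp [S, hne])
        exact absurd h (not_lt.mpr this)
      rw [this, zero_mul]
  · intro h; exact absurd (Finset.mem_univ i) h

/-- The skew Bollobás inequality for subspaces of a fixed dimension `d`. -/
lemma skew_fixed_dim {K : Type u} {E : Type v} [Field K] [AddCommGroup E] [Module K E]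
    [FiniteDimensional K E] {ι : Type} [LinearOrder ι] [Fintype ι] (d : ℕ)
    (U V : ι → Submodule K E) (hdim : ∀ i, finrank K (U i) = d)
    (hd : ∀ i, Disjoint (U i) (V i)) (hc : ∀ i j, i < j → ¬ Disjoint (U i) (V j)) :
    Fintype.card ι ≤ (finrank K E).choose d := by
  classical
  have hW : ∀ i, ∃ W : Submodule K E, V i ≤ W ∧ IsCompl (U i) W := by
    intro i
    obtain ⟨C, h1, h2⟩ := (hd i).symm.exists_isCompl
    exact ⟨C, h1, h2.symm⟩
  choose W hVW hUW using hW
  let b : ∀ i, Basis (Fin d) K (U i) := fun i => finBasisOfFinrankEq K (U i) (hdim i)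
  let π : ∀ i, E →ₗ[K] (U i) := fun i => (U i).projectionOnto (W i) (hUW i)
  let w : ι → ⋀[K]^d E := fun i => exteriorPower.ιMulti K d (fun k => ((b i k : U i) : E))
  let F : ι → (⋀[K]^d E →ₗ[K] K) := fun i =>
    exteriorPower.alternatingMapLinearEquiv ((b i).det.compLinearMap (π i))
  have hLI : LinearIndependent K w := by
    apply linInd_of_triangular w F
    · intro i
      simp only [F, w, exteriorPower.alternatingMapLinearEquiv_apply_ιMulti,
        AlternatingMap.compLinearMap_apply]
      have : (fun k => π i ((b i k : U i) : E)) = b i := by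
        funext k
        simp [π]
      change (b i).det (fun k => π i ((b i k : U i) : E)) ≠ 0
      rw [this, Basis.det_self]
      exact one_ne_zero
    · intro i j hij
      simp only [F, w, exteriorPower.alternatingMapLinearEquiv_apply_ιMulti,
        AlternatingMap.compLinearMap_apply]
      change (b j).det (fun k => π j ((b i k : U i) : E)) = 0
      apply AlternatingMap.map_linearDependent
      intro hli
      apply hc i j hij
      rw [Submodule.disjoint_def]
      intro x hxU hxV
      have hx0 : π j x = 0 := by
        have : x ∈ W j := hVW j hxV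
        simpa [π] using this
      have hsum : (∑ k, (b i).repr ⟨x, hxU⟩ k • ((b i k : U i) : E)) = x := by
        have h := congrArg (fun z : U i => (z : E)) ((b i).sum_repr ⟨x, hxU⟩)
        dsimp only at h
        rw [Submodule.coe_sum] at h
        simpa only [Submodule.coe_smul] using h
      have hz : ∑ k, (b i).repr ⟨x, hxU⟩ k • (π j ((b i k : U i) : E)) = 0 := by
        have := congrArg (π j) hsum
        rw [hx0, map_sum] at this
        simpa using this
      have hall := Fintype.linearIndependent_iff.mp hli _ hz
      rw [← hsum]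
      apply Finset.sum_eq_zero
      intro k _
      rw [hall k, zero_smul]
  have := hLI.fintype_card_le_finrank
  rwa [exteriorPower.finrank_eq] at this

/-- **The bound.**  Let `K` be a field and `n ≥ 0`.  If `(U i, V i)`, `i = 1, …, m`, are pairs of
nonzero linear subspaces of `K ^ (n + 1)` with `U i ⊓ V i = ⊥` for all `i` and
`U i ⊓ V j ≠ ⊥` whenever `i < j`, then `m ≤ 2 ^ (n + 1) - 2`. -/
theorem result (K : Type u) [Field K] (n m : ℕ)
    (U V : Fin m → Submodule K (Fin (n + 1) → K))
    (hU : ∀ i, U i ≠ ⊥) (hV : ∀ i, V i ≠ ⊥)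
    (hd : ∀ i, U i ⊓ V i = ⊥) (hc : ∀ i j, i < j → U i ⊓ V j ≠ ⊥) :
    m ≤ 2 ^ (n + 1) - 2 := by
  classical
  have hN : finrank K (Fin (n + 1) → K) = n + 1 := by simp
  have hlow : ∀ i, 1 ≤ finrank K (U i) := by
    intro i
    rw [Nat.one_le_iff_ne_zero]
    intro h
    exact hU i (Submodule.finrank_eq_zero.mp h)
  have hupp : ∀ i, finrank K (U i) ≤ n := by
    intro i
    have h1 : 1 ≤ finrank K (V i) := by
      rw [Nat.one_le_iff_ne_zero]
      intro h
      exact hV i (Submodule.finrank_eq_zero.mp h)
    have h2 := Submodule.finrank_sup_add_finrank_inf_eq (U i) (V i)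
    rw [hd i, finrank_bot] at h2
    have h3 : finrank K ((U i ⊔ V i : Submodule K (Fin (n + 1) → K))) ≤ n + 1 :=
      le_trans (Submodule.finrank_le _) hN.le
    omega
  have key : ∀ d, (Finset.univ.filter (fun i : Fin m => finrank K (U i) = d)).card
      ≤ (n + 1).choose d := by
    intro d
    let ι := {i : Fin m // finrank K (U i) = d}
    have := skew_fixed_dim (ι := ι) d (fun i => U i.1) (fun i => V i.1) (fun i => i.2)
      (fun i => disjoint_iff.mpr (hd i.1))
      (fun i j hij h => hc i.1 j.1 hij (disjoint_iff.mp h))
    rw [hN] at this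
    rwa [Fintype.card_subtype] at this
  have hcount : m = ∑ d ∈ Finset.Icc 1 n,
      (Finset.univ.filter (fun i : Fin m => finrank K (U i) = d)).card := by
    have h := Finset.card_eq_sum_card_fiberwise (s := (Finset.univ : Finset (Fin m)))
      (t := Finset.Icc 1 n) (f := fun i => finrank K (U i))
      (fun i _ => by simp [hlow i, hupp i])
    simpa using h
  have hbin : ∑ d ∈ Finset.Icc 1 n, (n + 1).choose d + 2 = 2 ^ (n + 1) := by
    have h := Nat.sum_range_choose (n + 1)
    rw [Finset.sum_range_succ, Finset.sum_range_succ'] at h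
    have h2 : ∑ d ∈ Finset.Icc 1 n, (n + 1).choose d
        = ∑ k ∈ Finset.range n, (n + 1).choose (k + 1) := by
      rw [Finset.range_eq_Ico, Finset.sum_Ico_add' (fun k => (n + 1).choose k) 0 n 1]
      rfl
    rw [h2]
    simp at h
    omega
  calc m = ∑ d ∈ Finset.Icc 1 n,
      (Finset.univ.filter (fun i : Fin m => finrank K (U i) = d)).card := hcount
    _ ≤ ∑ d ∈ Finset.Icc 1 n, (n + 1).choose d := Finset.sum_le_sum (fun d _ => key d)
    _ = 2 ^ (n + 1) - 2 := by omega

end Pool.Agent.Results.MP_59f694_co.CrossIntersectingBound
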